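import Mathlib
import Pool.Agent.H17.SRef

namespace Pool.Agent.Results.MP_902647_gt.Neg

open Set Pool.Agent.H17.SRef

theorem result : ∃ (d : ℕ) (C : Set (Fin d → ℝ)), IsPolytope C ∧ ¬ IsSimplex C ∧
    ∃ (ι : Type) (_ : Fintype ι) (Df : Set (ι → ℝ)) (f : (ι → ℝ) → Fin d → ℝ)
      (Dg : Set (stdSimplex ℝ ι → ℝ)) (g : (stdSimplex ℝ ι → ℝ) → C → ℝ),
      Refines (stdSimplex ℝ ι) C Df f Dg g ∧ Fintype.card ι < (extremePoints ℝ C).ncard := by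
  obtain ⟨Dg, g, h⟩ := cub_refines
  exact ⟨4, Cub, cub_poly, cub_not, I8, inferInstance, D8, f8, Dg, g, h, by simpa using ext_card⟩

end Pool.Agent.Results.MP_902647_gt.Neg
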